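import Mathlib
import Pool.Agent.H295R3.NA.Stmts
import Pool.Agent.Helper256.KM.E1

/-! Project H295-NA, task LQ. -/

set_option autoImplicit false

open Finset

namespace Pool.Agent.H531R3.NA

open Pool.Agent.H295R3.NA

theorem mert (Z : ℕ) (hZ : 1 ≤ Z) :
    ∑ p ∈ (Icc 1 Z).filter Nat.Prime, Real.log p / p ≤ 4 + 2 * Real.log Z := by
  have h1 := Pool.Agent.Helper256.KM.e1_mertens_log Z
  have hZ' : (1 : ℝ) ≤ Z := by exact_mod_cast hZ
  have h2 : Chebyshev.theta ((Z : ℕ) : ℝ) ≤ Real.log 4 * (Z : ℝ) :=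
    Chebyshev.theta_le_log4_mul_x (by positivity)
  have h4 : Real.log 4 ≤ 2 := by
    have : (4 : ℝ) = 2 ^ 2 := by norm_num
    rw [this, Real.log_pow]
    have := Real.log_two_lt_d9
    push_cast
    linarith
  have h40 : 0 ≤ Real.log 4 := Real.log_nonneg (by norm_num)
  have h3 : Chebyshev.theta ((Z : ℕ) : ℝ) / (Z + 1) ≤ 2 := by
    rw [div_le_iff₀ (by positivity)]
    nlinarith
  have h5 : Real.log (Z + 1) ≤ Real.log Z + 1 := by
    have h6 : Real.log ((Z : ℝ) + 1) ≤ Real.log (2 * Z) := Real.log_le_log (by positivity) (by linarith)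
    rw [Real.log_mul (by norm_num) (by positivity)] at h6
    have := Real.log_two_lt_d9
    linarith
  have h7 : 0 ≤ Real.log (Z + 1) := Real.log_nonneg (by linarith)
  have h8 : Real.log 4 * Real.log (Z + 1) ≤ 2 * (Real.log Z + 1) :=
    (mul_le_mul_of_nonneg_right h4 h7).trans (mul_le_mul_of_nonneg_left h5 (by norm_num))
  linarith

theorem split (l Y Z : ℕ) (hZ : 1 ≤ Z) (hZY : Z ≤ Y) :
    ∑ q ∈ (Icc 1 Y).filter (fun q : ℕ => q.Prime ∧ l ∣ q + 1), Real.log q / q ≤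
      (4 + 2 * Real.log Z) + Real.log Y * (RS l Y - RS l Z) := by
  have e1 := (sum_filter_add_sum_filter_not ((Icc 1 Y).filter (fun q : ℕ => q.Prime ∧ l ∣ q + 1))
    (fun q => q ≤ Z) (fun q : ℕ => Real.log q / q)).symm
  rw [e1]
  have e2 : (Icc 1 Z).filter (fun q : ℕ => q.Prime ∧ l ∣ q + 1) =
      ((Icc 1 Y).filter (fun q : ℕ => q.Prime ∧ l ∣ q + 1)).filter (fun q => q ≤ Z) := by
    ext q
    simp only [mem_filter, mem_Icc]
    constructor
    · rintro ⟨⟨h1, h2⟩, h3⟩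
      exact ⟨⟨⟨h1, h2.trans hZY⟩, h3⟩, h2⟩
    · rintro ⟨⟨⟨h1, _⟩, h3⟩, h2⟩
      exact ⟨⟨h1, h2⟩, h3⟩
  have e3 : RS l Y - RS l Z = ∑ q ∈ ((Icc 1 Y).filter (fun q : ℕ => q.Prime ∧ l ∣ q + 1)).filter
      (fun q => ¬ q ≤ Z), (1 : ℝ) / q := by
    unfold RS
    rw [e2, (sum_filter_add_sum_filter_not ((Icc 1 Y).filter (fun q : ℕ => q.Prime ∧ l ∣ q + 1))
      (fun q => q ≤ Z) (fun q : ℕ => (1 : ℝ) / q)).symm]
    ring
  refine add_le_add ?_ ?_
  · rw [← e2]
    refine le_trans (sum_le_sum_of_subset_of_nonneg ?_ ?_) (mert Z hZ)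
    · intro q hq
      simp only [mem_filter, mem_Icc] at hq ⊢
      exact ⟨hq.1, hq.2.1⟩
    · intro q _ _
      exact div_nonneg (Real.log_natCast_nonneg q) (by positivity)
  · rw [e3, mul_sum]
    refine sum_le_sum fun q hq => ?_
    simp only [mem_filter, mem_Icc] at hq
    have hq1 : (1 : ℝ) ≤ q := by exact_mod_cast hq.1.1.1
    have hqY : (q : ℝ) ≤ Y := by exact_mod_cast hq.1.1.2
    rw [mul_one_div]
    exact div_le_div_of_nonneg_right (Real.log_le_log (by linarith) hqY) (by linarith)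

theorem taskLQ : TaskLQ := by
  intro hM ε hε
  obtain ⟨l1, x1, h⟩ := hM (ε / 16) (by positivity)
  obtain ⟨θ, hθ0, hθ1, hθε⟩ : ∃ θ : ℝ, 0 < θ ∧ θ ≤ 1 ∧ θ ≤ ε / 8 :=
    ⟨min (ε / 8) 1, lt_min (by positivity) one_pos, min_le_right _ _, min_le_left _ _⟩
  obtain ⟨K, hK⟩ : ∃ K : ℝ, K = -Real.log (θ / 2) := ⟨_, rfl⟩
  have hK0 : 0 ≤ K := by
    rw [hK]
    have := Real.log_nonpos (by positivity : 0 ≤ θ / 2) (by linarith)
    linarith
  obtain ⟨A, hA⟩ : ∃ A : ℝ, A = 16 / ε + Real.exp (2 * K) + (x1 + 4) / θ := ⟨_, rfl⟩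
  refine ⟨max l1 (⌈4 * K / ε⌉₊ + 2), ⌈Real.exp A⌉₊, ?_⟩
  intro Y hY l hl hl0 hlY
  have hl1 : l1 ≤ l := (le_max_left _ _).trans hl0
  have hl2 : 4 * K / ε ≤ (l : ℝ) - 1 := by
    have h1 : 4 * K / ε ≤ (⌈4 * K / ε⌉₊ : ℝ) := Nat.le_ceil _
    have h2 : ((⌈4 * K / ε⌉₊ + 2 : ℕ) : ℝ) ≤ l := by exact_mod_cast (le_max_right _ _).trans hl0
    push_cast at h2
    linarith
  have hlpos : 0 < (l : ℝ) - 1 := by
    have := hl.two_le
    have : (2 : ℝ) ≤ l := by exact_mod_cast this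
    linarith
  have hYA : Real.exp A ≤ Y := (Nat.le_ceil _).trans (by exact_mod_cast hY)
  have hY0 : (0 : ℝ) < Y := lt_of_lt_of_le (Real.exp_pos _) hYA
  have hlog : A ≤ Real.log Y := by
    rw [← Real.log_exp A]
    exact Real.log_le_log (Real.exp_pos _) hYA
  have a1 : 0 < 16 / ε := by positivity
  have a2 : 0 < Real.exp (2 * K) := Real.exp_pos _
  have a3 : 0 < ((x1 : ℝ) + 4) / θ := by positivity
  have b1 : 16 / ε ≤ Real.log Y := by linarith
  have b2 : Real.exp (2 * K) ≤ Real.log Y := by linarith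
  have b3 : ((x1 : ℝ) + 4) / θ ≤ Real.log Y := by linarith
  have hlogpos : 0 < Real.log Y := by linarith
  have hLL : 2 * K ≤ LL Y := by
    unfold LL
    rw [← Real.log_exp (2 * K)]
    exact Real.log_le_log a2 b2
  have b3' : (x1 : ℝ) + 4 ≤ θ * Real.log Y := by
    rw [div_le_iff₀ hθ0] at b3
    linarith
  have hw : (x1 : ℝ) + 4 + 1 ≤ Real.exp (θ * Real.log Y) := by
    have := Real.add_one_le_exp (θ * Real.log Y)
    linarith
  obtain ⟨Z, hZ⟩ : ∃ Z : ℕ, Z = ⌊Real.exp (θ * Real.log Y)⌋₊ := ⟨_, rfl⟩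
  have hZx : x1 + 5 ≤ Z := by
    rw [hZ]
    apply Nat.le_floor
    push_cast
    linarith
  have hZle : (Z : ℝ) ≤ Real.exp (θ * Real.log Y) := by
    rw [hZ]; exact Nat.floor_le (Real.exp_pos _).le
  have hZgt : Real.exp (θ * Real.log Y) < (Z : ℝ) + 1 := by
    rw [hZ]; exact Nat.lt_floor_add_one _
  have hZpos : (0 : ℝ) < Z := by
    have : 0 < Z := by omega
    exact_mod_cast this
  have hZY : Z ≤ Y := by
    have h1 : Real.exp (θ * Real.log Y) ≤ Real.exp (Real.log Y) := by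
      apply Real.exp_le_exp.2
      nlinarith
    rw [Real.exp_log hY0] at h1
    exact_mod_cast hZle.trans h1
  have hlogZ : Real.log Z ≤ θ * Real.log Y := by
    have := Real.log_le_log hZpos hZle
    rwa [Real.log_exp] at this
  have hv : Real.exp (θ / 2 * Real.log Y) ≤ Z := by
    have e : Real.exp (θ * Real.log Y) = Real.exp (θ / 2 * Real.log Y) ^ 2 := by
      rw [sq, ← Real.exp_add]; congr 1; ring
    rw [e] at hZgt hw
    have hx1 : (0 : ℝ) ≤ x1 := Nat.cast_nonneg _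
    have hvpos := Real.exp_pos (θ / 2 * Real.log Y)
    have hv2 : 2 ≤ Real.exp (θ / 2 * Real.log Y) := by nlinarith
    nlinarith
  have hlogZ2 : θ / 2 * Real.log Y ≤ Real.log Z := by
    have := Real.log_le_log (Real.exp_pos _) hv
    rwa [Real.log_exp] at this
  have hLLZ : LL Y - K ≤ LL Z := by
    have h1 : Real.log (θ / 2 * Real.log Y) ≤ Real.log (Real.log Z) :=
      Real.log_le_log (by positivity) hlogZ2
    rw [Real.log_mul (by positivity) (by positivity)] at h1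
    unfold LL
    linarith
  have m1 := h Z (by omega) l hl hl1 (by linarith)
  have m2 := h Y (by omega) l hl hl1 (by linarith)
  have m1' := (abs_le.1 m1).1
  have m2' := (abs_le.1 m2).2
  have hdiff : LL Y / ((l : ℝ) - 1) - LL Z / ((l : ℝ) - 1) ≤ ε / 4 := by
    rw [← sub_div, div_le_iff₀ hlpos]
    have : K ≤ ε / 4 * ((l : ℝ) - 1) := by
      rw [div_le_iff₀ hε] at hl2
      linarith
    linarith
  have hRS : RS l Y - RS l Z ≤ ε / 4 + ε / 8 := by linarith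
  have hfin := split l Y Z (by omega) hZY
  have c1 : Real.log Y * (RS l Y - RS l Z) ≤ Real.log Y * (ε / 4 + ε / 8) :=
    mul_le_mul_of_nonneg_left hRS hlogpos.le
  have c2 : 16 ≤ ε * Real.log Y := by
    rw [div_le_iff₀ hε] at b1
    linarith
  have c3 : θ * Real.log Y ≤ ε / 8 * Real.log Y := mul_le_mul_of_nonneg_right hθε hlogpos.le
  linarith

end Pool.Agent.H531R3.NA
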